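import Mathlib

namespace Pool.Agent.Results.MP_fd0bc0_an.Counter

open MeasureTheory Filter Topology Set

/-- Lebesgue measure on `(0,1)`. -/
noncomputable def mu : Measure ℝ := volume.restrict (Ioo 0 1)

/-- The space `L²(0,1)`. -/
abbrev H : Type := Lp ℂ 2 mu

/-- Carleman kernels. -/
def IsKernel (k : ℝ → ℝ → ℂ) : Prop :=
  AEStronglyMeasurable (Function.uncurry k) (mu.prod mu) ∧ ∀ᵐ x ∂mu, MemLp (k x) 2 mu

/-- `g` is the image of `f` under the integral operator with kernel `k`. -/
def Rep (k : ℝ → ℝ → ℂ) (f g : H) : Prop := g =ᵐ[mu] fun x => ∫ y, k x y * f y ∂mu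

/-- Carleman operators. -/
def IsCarleman (A : H →ₗ.[ℂ] H) : Prop := ∃ k, IsKernel k ∧ ∀ f : A.domain, Rep k f (A f)

/-- The product `AB`, on `{f ∈ D(B) : Bf ∈ D(A)}`, is a Carleman operator. -/
def ProdCarleman (A B : H →ₗ.[ℂ] H) : Prop :=
  ∃ k, IsKernel k ∧ ∀ (f : B.domain) (h : B f ∈ A.domain), Rep k f (A ⟨B f, h⟩)

instance : IsProbabilityMeasure mu := ⟨by simp [mu]⟩

noncomputable def idx (x : ℝ) : ℕ := ⌊x⁻¹⌋₊

lemma idx_meas : Measurable idx := Nat.measurable_floor.comp measurable_inv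

def J (n : ℕ) : Set ℝ := idx ⁻¹' {n}

lemma J_meas (n : ℕ) : MeasurableSet (J n) := idx_meas (measurableSet_singleton n)

lemma big_le (n : ℕ) : mu (idx ⁻¹' Ici (n + 1)) ≤ ENNReal.ofReal (1 / (n + 1)) := by
  rw [mu, Measure.restrict_apply (idx_meas measurableSet_Ici)]
  refine (measure_mono (t := Ioc 0 (1 / (n + 1 : ℝ))) fun x hx => ⟨hx.2.1, ?_⟩).trans (by simp)
  have h : n + 1 ≤ ⌊x⁻¹⌋₊ := hx.1
  rw [Nat.le_floor_iff (inv_nonneg.2 hx.2.1.le)] at h
  rw [one_div, le_inv_comm₀ hx.2.1 (by positivity)]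
  exact_mod_cast h

lemma J_pos (n : ℕ) : mu.real (J (n + 1)) ≠ 0 := by
  rw [measureReal_ne_zero_iff, mu, Measure.restrict_apply (J_meas _)]
  have h1 : (1 : ℝ) / (n + 2) < 1 / (n + 1) :=
    one_div_lt_one_div_of_lt (by positivity) (by linarith)
  have h2 : (1 : ℝ) / (n + 1) ≤ 1 := by
    rw [div_le_one (by positivity)]; linarith [Nat.cast_nonneg (α := ℝ) n]
  refine ((Measure.measure_Ioo_pos _).2 h1 |>.trans_le (measure_mono fun x hx => ?_)).ne'
  have h0 : 0 < x := lt_trans (by positivity) hx.1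
  refine ⟨?_, h0, hx.2.trans_le h2⟩
  show ⌊x⁻¹⌋₊ = n + 1
  rw [Nat.floor_eq_iff (inv_nonneg.2 h0.le)]
  push_cast
  constructor
  · rw [le_inv_comm₀ (by positivity) h0, ← one_div]; exact hx.2.le
  · rw [inv_lt_comm₀ h0 (by positivity), ← one_div, add_assoc, one_add_one_eq_two]; exact hx.1

noncomputable def cc (n : ℕ) : ℂ := ((mu.real (J n) : ℂ) ^ 2)⁻¹

noncomputable def kk (x y : ℝ) : ℂ := if idx y = idx x then cc (idx x) else 0

lemma kk_eq (x : ℝ) : kk x = (J (idx x)).indicator fun _ => cc (idx x) := by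
  funext y
  simp [kk, J, indicator]

lemma kk_kernel : IsKernel kk := by
  refine ⟨Measurable.aestronglyMeasurable ?_, Eventually.of_forall fun x => ?_⟩
  · exact Measurable.ite (measurableSet_eq_fun (idx_meas.comp measurable_snd)
      (idx_meas.comp measurable_fst))
      ((measurable_from_nat (f := cc)).comp (idx_meas.comp measurable_fst)) measurable_const
  · rw [kk_eq]
    exact (memLp_const _).indicator (J_meas _)

noncomputable def op (f : H) (x : ℝ) : ℂ := ∫ y, kk x y * f y ∂mu

lemma op_eq (f : H) (x : ℝ) : op f x = cc (idx x) * ∫ y in J (idx x), f y ∂mu := by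
  rw [op, kk_eq, ← integral_const_mul, ← integral_indicator (J_meas _)]
  congr 1
  funext y
  rw [indicator_mul_left]

lemma intg (f : H) : Integrable f mu := (Lp.memLp f).integrable one_le_two

lemma op_add (f g : H) : op (f + g) = op f + op g := by
  funext x
  rw [Pi.add_apply, op_eq, op_eq, op_eq, ← mul_add,
    ← integral_add (intg f).integrableOn (intg g).integrableOn]
  congr 1
  exact integral_congr_ae (ae_restrict_of_ae (Lp.coeFn_add f g))

lemma op_smul (c : ℂ) (f : H) : op (c • f) = c • op f := by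
  funext x
  rw [Pi.smul_apply, op_eq, op_eq, smul_eq_mul, mul_left_comm, ← integral_const_mul c]
  congr 1
  exact integral_congr_ae (ae_restrict_of_ae (Lp.coeFn_smul c f))

def dom : Submodule ℂ H where
  carrier := {f | MemLp (op f) 2 mu}
  add_mem' {f g} hf hg := by
    show MemLp (op (f + g)) 2 mu
    rw [op_add]; exact hf.add hg
  zero_mem' := by
    show MemLp (op 0) 2 mu
    rw [← zero_smul ℂ (0 : H), op_smul, zero_smul]; exact MemLp.zero
  smul_mem' c f hf := by
    show MemLp (op (c • f)) 2 mu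
    rw [op_smul]; exact hf.const_smul c

noncomputable def B : H →ₗ.[ℂ] H where
  domain := dom
  toFun :=
    { toFun := fun f => MemLp.toLp (op f.1) f.2
      map_add' := fun f g => by
        rw [← MemLp.toLp_add]
        exact MemLp.toLp_congr _ _ (by rw [← op_add]; rfl)
      map_smul' := fun c f => by
        rw [RingHom.id_apply, ← MemLp.toLp_const_smul]
        exact MemLp.toLp_congr _ _ (by rw [← op_smul]; rfl) }

noncomputable def one : H := (memLp_const (1 : ℂ)).toLp _

noncomputable def AL : H →L[ℂ] H := (innerSL ℂ one).smulRight one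

lemma AL_apply (g : H) : AL g =ᵐ[mu] fun _ => ∫ y, g y ∂mu := by
  have h1 : (one : ℝ → ℂ) =ᵐ[mu] fun _ => 1 := MemLp.coeFn_toLp _
  have h2 : inner ℂ one g = ∫ y, g y ∂mu := by
    rw [L2.inner_def]
    refine integral_congr_ae ?_
    filter_upwards [h1] with y hy
    simp [hy]
  filter_upwards [Lp.coeFn_smul (inner ℂ one g) one, h1] with x hx hx'
  show (inner ℂ one g • one : H) x = _
  rw [hx, Pi.smul_apply, hx', h2, smul_eq_mul, mul_one]

lemma mem_dom (f : H) (N : ℕ) (hf : ∀ᵐ x ∂mu, N ≤ idx x → f x = 0) : f ∈ dom := by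
  have hm : Measurable (op f) := by
    rw [funext (op_eq f)]
    exact (measurable_from_nat (f := fun n => cc n * ∫ y in J n, f y ∂mu)).comp idx_meas
  refine MemLp.of_bound hm.aestronglyMeasurable
    (∑ n ∈ Finset.range N, ‖cc n * ∫ y in J n, f y ∂mu‖) (Eventually.of_forall fun x => ?_)
  rw [op_eq]
  by_cases h : idx x < N
  · exact Finset.single_le_sum (f := fun n => ‖cc n * ∫ y in J n, f y ∂mu‖)
      (fun _ _ => norm_nonneg _) (Finset.mem_range.2 h)
  · rw [setIntegral_eq_zero_of_ae_eq_zero, mul_zero, norm_zero]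
    · positivity
    · filter_upwards [hf] with y hy hy'
      exact hy (by rw [show idx y = idx x from hy']; omega)

lemma dense_dom : Dense (dom : Set H) := by
  refine Metric.dense_iff.2 fun f ε hε => ?_
  obtain ⟨δ, hδ, h⟩ := (Lp.memLp f).eLpNorm_indicator_le one_le_two ENNReal.ofNat_ne_top
    (half_pos hε)
  obtain ⟨n, hn⟩ := exists_nat_one_div_lt hδ
  have hs : MeasurableSet (idx ⁻¹' Ici (n + 1)) := idx_meas measurableSet_Ici
  have hg := (Lp.memLp f).indicator hs
  refine ⟨f - hg.toLp _, ?_, mem_dom _ (n + 1) ?_⟩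
  · rw [mem_ball_iff_norm, sub_sub_cancel_left, norm_neg, Lp.norm_toLp]
    refine (ENNReal.toReal_le_of_le_ofReal (by positivity)
      (h _ hs ((big_le n).trans (ENNReal.ofReal_le_ofReal hn.le)))).trans_lt (by linarith)
  · filter_upwards [Lp.coeFn_sub f (hg.toLp _), hg.coeFn_toLp] with x hx hx' hn
    rw [hx, Pi.sub_apply, hx', indicator_of_mem (by exact hn), sub_self]

theorem result : ∃ A B : H →ₗ.[ℂ] H, A.domain = ⊤ ∧ Dense (B.domain : Set H) ∧
    IsCarleman A ∧ IsCarleman B ∧ ¬ ProdCarleman A B := by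
  refine ⟨(AL : H →ₗ[ℂ] H).toPMap ⊤, B, rfl, dense_dom, ⟨fun _ _ => 1, ⟨aestronglyMeasurable_const,
    Eventually.of_forall fun _ => memLp_const _⟩, fun f => ?_⟩,
    ⟨kk, kk_kernel, fun f => MemLp.coeFn_toLp f.2⟩, ?_⟩
  · simpa [Rep] using AL_apply f
  rintro ⟨k, hk, h⟩
  let e : ℕ → H := fun n => indicatorConstLp 2 (J_meas (n + 1)) (measure_ne_top _ _) (1 : ℂ)
  have he : ∀ n, e n =ᵐ[mu] (J (n + 1)).indicator fun _ => 1 := fun n => indicatorConstLp_coeFn
  have hd : ∀ n, e n ∈ dom := fun n => mem_dom _ (n + 2) (by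
    filter_upwards [he n] with x hx hn
    rw [hx, indicator_of_notMem]
    intro h
    have : idx x = n + 1 := h
    omega)
  have h1 : ∀ n, op (e n) = (J (n + 1)).indicator fun _ => (mu.real (J (n + 1)) : ℂ)⁻¹ := by
    intro n
    funext x
    rw [op_eq, integral_congr_ae (ae_restrict_of_ae (he n)), integral_indicator (J_meas _),
      Measure.restrict_restrict (J_meas _)]
    by_cases hx : x ∈ J (n + 1)
    · have : (mu.real (J (n + 1)) : ℂ) ≠ 0 := by exact_mod_cast J_pos n
      rw [indicator_of_mem hx, show idx x = n + 1 from hx, inter_self, cc]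
      simp only [integral_const, MeasurableSet.univ, measureReal_restrict_apply, univ_inter,
        Complex.real_smul, mul_one]
      field_simp
    · have : J (n + 1) ∩ J (idx x) = ∅ := by
        refine eq_empty_of_forall_notMem fun y hy => hx ?_
        exact (show idx y = idx x from hy.2).symm.trans hy.1
      simp [this, indicator_of_notMem hx]
  have h2 : ∀ n, ∀ᵐ x ∂mu, ∫ y in J (n + 1), k x y ∂mu = 1 := by
    intro n
    filter_upwards [h ⟨e n, hd n⟩ trivial, AL_apply (B ⟨e n, hd n⟩)] with x hx hx'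
    have a1 : ∫ y, k x y * e n y ∂mu = ∫ y in J (n + 1), k x y ∂mu := by
      rw [← integral_indicator (J_meas _)]
      refine integral_congr_ae ?_
      filter_upwards [he n] with y hy
      rw [hy, ← indicator_mul_right]
      simp only [mul_one]
    have a2 : ∫ y, (B ⟨e n, hd n⟩) y ∂mu = 1 := by
      have : (mu.real (J (n + 1)) : ℂ) ≠ 0 := by exact_mod_cast J_pos n
      refine (integral_congr_ae (MemLp.coeFn_toLp (hd n))).trans ?_
      rw [h1, integral_indicator (J_meas _)]
      simp [this]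
    rw [← a1, ← a2, ← hx', ← hx]
    rfl
  obtain ⟨x, hx, hx'⟩ := ((ae_all_iff.2 h2).and hk.2).exists
  have h3 : Tendsto (mu ∘ fun n => J (n + 1)) atTop (𝓝 0) := by
    refine tendsto_of_tendsto_of_tendsto_of_le_of_le tendsto_const_nhds ?_ (fun _ => zero_le)
      fun n => (measure_mono (t := idx ⁻¹' Ici (n + 1)) fun y hy => ?_).trans (big_le n)
    · simpa using ENNReal.tendsto_ofReal (tendsto_one_div_add_atTop_nhds_zero_nat (𝕜 := ℝ))
    · exact (show idx y = n + 1 from hy).ge
  have h4 := (hx'.integrable one_le_two).tendsto_setIntegral_nhds_zero h3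
  simp only [hx] at h4
  exact one_ne_zero (tendsto_const_nhds_iff.1 h4)

end Pool.Agent.Results.MP_fd0bc0_an.Counter
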